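import Pool.Agent.X190.ZStar

/-! Injective Woronowicz morphisms map `Z*`-algebras only into `Z*`-algebras. -/

set_option autoImplicit false

namespace Pool.Agent.Results.MP_e20a4f_an.TargetsAreZStar

open Filter Topology Pool.Agent.X190.ZStar
open scoped MultiplierAlgebra

universe u v

/-- A Woronowicz morphism from `A` to `B`: a `*`-homomorphism `f : A → M(B)` such that the linear
span of the elements `f(a) b` is norm dense in `B`. -/
def IsWoronowicz {A : Type u} {B : Type v} [NonUnitalCStarAlgebra A] [NonUnitalCStarAlgebra B]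
    (f : A →⋆ₙₐ[ℂ] 𝓜(ℂ, B)) : Prop :=
  Dense (Submodule.span ℂ {c : B | ∃ (a : A) (b : B), c = (f a).fst b} : Set B)

/-- If `A` is a `Z*`-algebra and there is an injective Woronowicz morphism from `A` to the
C*-algebra `B`, then `B` is a `Z*`-algebra. -/
theorem result (A : Type u) (B : Type v) [NonUnitalCStarAlgebra A] [NonUnitalCStarAlgebra B]
    (f : A →⋆ₙₐ[ℂ] 𝓜(ℂ, B)) (hf : Function.Injective f) (hW : IsWoronowicz f) (hA : IsZStar A) :
    IsZStar B := by
  classical
  rintro b ⟨y0, hb⟩
  by_contra hnz
  have hbs : star b = b := by rw [hb, star_mul, star_star]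
  -- elements of the span are killed by annihilators of finite sets
  have key : ∀ c ∈ Submodule.span ℂ {c : B | ∃ (a : A) (b : B), c = (f a).fst b},
      ∃ Y : Finset A, ∀ x : A, (∀ y ∈ Y, y * x = 0) → (f x).snd (star c) = 0 := by
    intro c hc
    induction hc using Submodule.span_induction with
    | mem c hc =>
      obtain ⟨a, d, rfl⟩ := hc
      refine ⟨{star a}, fun x hx => ?_⟩
      have h1 := hx (star a) (Finset.mem_singleton_self _)
      have h2 : star ((f a).fst d) = (f (star a)).snd (star d) := by
        have h0 : f (star a) = star (f a) := map_star f a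
        rw [h0, DoubleCentralizer.star_snd, star_star]
      have h3 : (f x).snd ((f (star a)).snd (star d)) = (f (star a * x)).snd (star d) := by
        rw [map_mul, DoubleCentralizer.mul_snd]; rfl
      rw [h2, h3, h1, map_zero, DoubleCentralizer.zero_snd]; rfl
    | zero => exact ⟨∅, fun x _ => by rw [star_zero, map_zero]⟩
    | add c d _ _ hc hd =>
      obtain ⟨Y, hY⟩ := hc
      obtain ⟨Z, hZ⟩ := hd
      refine ⟨Y ∪ Z, fun x hx => ?_⟩
      rw [star_add, map_add, hY x fun y hy => hx y (Finset.mem_union_left _ hy),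
        hZ x fun y hy => hx y (Finset.mem_union_right _ hy), add_zero]
    | smul r c _ hc =>
      obtain ⟨Y, hY⟩ := hc
      refine ⟨Y, fun x hx => ?_⟩
      rw [star_smul, map_smul, hY x hx, smul_zero]
  -- a sequence converging to `b`
  have hseq : ∀ n : ℕ, ∃ c ∈ Submodule.span ℂ {c : B | ∃ (a : A) (b : B), c = (f a).fst b},
      ‖b - c‖ < 1 / ((n : ℝ) + 1) := by
    intro n
    obtain ⟨s, hs, h⟩ := Metric.mem_closure_iff.1 (hW b) (1 / ((n : ℝ) + 1)) (by positivity)
    exact ⟨s, hs, by rwa [dist_eq_norm] at h⟩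
  choose c hc hcn using hseq
  choose! Y hY using key
  have hcount : (⋃ n, (Y (c n) : Set A)).Countable :=
    Set.countable_iUnion fun n => (Y (c n)).countable_toSet
  obtain ⟨x, hx, hxann⟩ := common_annihilator' hA hcount
  have h1 : ∀ n, (f x).snd (star (c n)) = 0 := fun n =>
    hY (c n) (hc n) x fun y hy => hxann y (Set.mem_iUnion.2 ⟨n, hy⟩)
  have h2 : Tendsto c atTop (𝓝 b) := by
    rw [tendsto_iff_norm_sub_tendsto_zero]
    refine squeeze_zero (fun n => norm_nonneg _) (fun n => ?_)
      (tendsto_one_div_add_atTop_nhds_zero_nat (𝕜 := ℝ))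
    rw [norm_sub_rev]; exact (hcn n).le
  have h3 : (f x).snd b = 0 := by
    have h4 : Tendsto (fun n => (f x).snd (star (c n))) atTop (𝓝 ((f x).snd (star b))) :=
      ((f x).snd.continuous.tendsto _).comp ((continuous_star.tendsto _).comp h2)
    rw [hbs] at h4
    simp only [h1] at h4
    exact tendsto_nhds_unique h4 tendsto_const_nhds
  have h5 : ∀ d : B, (f x).fst d = 0 := by
    intro d
    apply not_zd hnz
    rw [← (f x).central, h3, zero_mul]
  have h6 : f x = 0 := by
    have h7 : ‖f x‖ = 0 := by
      rw [← DoubleCentralizer.norm_fst]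
      have : (f x).fst = 0 := by ext d; exact h5 d
      rw [this, norm_zero]
    exact norm_eq_zero.1 h7
  exact hx (hf (by rw [h6, map_zero]))

end Pool.Agent.Results.MP_e20a4f_an.TargetsAreZStar
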